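import Mathlib

/-!
# A box principle for real linear forms; Taylor approximation of real powers
-/

set_option autoImplicit false

namespace Pool.Agent.X142.DM

open Finset

/-- box principle: real linear forms with bounded coefficients are small at an integer point -/
theorem box {ι κ : Type} [Fintype ι] [Fintype κ] [DecidableEq ι] (L : κ → ι → ℝ) {A : ℝ}
    (hA0 : 0 ≤ A) (hA : ∀ j i, |L j i| ≤ A) (M R : ℕ) (hR : 0 < R)
    (h : R ^ Fintype.card κ < (M + 1) ^ Fintype.card ι) :
    ∃ c : ι → ℤ, c ≠ 0 ∧ (∀ i, |c i| ≤ M) ∧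
      ∀ j, |∑ i, (c i : ℝ) * L j i| ≤ 2 * (Fintype.card ι * (M * A) + 1) / R := by
  classical
  set W : ℝ := Fintype.card ι * (M * A) + 1 with hW
  have hW0 : 0 < W := by positivity
  have hRr : (0 : ℝ) < R := by exact_mod_cast hR
  set v : (ι → Fin (M + 1)) → κ → ℝ := fun c j => ∑ i, ((c i : ℕ) : ℝ) * L j i with hv
  have hvW : ∀ c j, |v c j| < W := by
    intro c j
    calc |v c j| ≤ ∑ i, |((c i : ℕ) : ℝ) * L j i| := Finset.abs_sum_le_sum_abs _ _
      _ ≤ ∑ _i : ι, (M : ℝ) * A := by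
          refine Finset.sum_le_sum fun i _ => ?_
          rw [abs_mul, Nat.abs_cast]
          have h1 : ((c i : ℕ) : ℝ) ≤ M := by exact_mod_cast Nat.lt_succ_iff.1 (c i).2
          exact mul_le_mul h1 (hA j i) (abs_nonneg _) (Nat.cast_nonneg _)
      _ = Fintype.card ι * (M * A) := by simp
      _ < W := by rw [hW]; linarith
  have hpos : ∀ c j, 0 < (v c j + W) / (2 * W) ∧ (v c j + W) / (2 * W) < 1 := by
    intro c j
    have := abs_lt.1 (hvW c j)
    refine ⟨div_pos (by linarith) (by linarith), ?_⟩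
    rw [div_lt_one (by linarith)]
    linarith
  have hlt : ∀ c j, ⌊(v c j + W) / (2 * W) * R⌋₊ < R := by
    intro c j
    rw [Nat.floor_lt (by have := (hpos c j).1; positivity)]
    have := (hpos c j).2
    nlinarith
  set f : (ι → Fin (M + 1)) → (κ → Fin R) := fun c j => ⟨⌊(v c j + W) / (2 * W) * R⌋₊, hlt c j⟩
    with hf
  have hcard : Fintype.card (κ → Fin R) < Fintype.card (ι → Fin (M + 1)) := by
    simpa using h
  obtain ⟨c, c', hne, heq⟩ := Fintype.exists_ne_map_eq_of_card_lt f hcard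
  refine ⟨fun i => ((c i : ℕ) : ℤ) - ((c' i : ℕ) : ℤ), ?_, ?_, ?_⟩
  · intro h0
    apply hne
    funext i
    have := congrFun h0 i
    simp only [Pi.zero_apply, sub_eq_zero] at this
    exact Fin.ext (by exact_mod_cast this)
  · intro i
    have h1 := (c i).2
    have h2 := (c' i).2
    change |((c i : ℕ) : ℤ) - ((c' i : ℕ) : ℤ)| ≤ M
    rw [abs_le]
    constructor <;> omega
  · intro j
    have h1 : ∑ i, (((((c i : ℕ) : ℤ) - ((c' i : ℕ) : ℤ) : ℤ)) : ℝ) * L j i = v c j - v c' j := by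
      rw [hv]
      simp only
      rw [← Finset.sum_sub_distrib]
      refine Finset.sum_congr rfl fun i _ => ?_
      push_cast
      ring
    rw [h1]
    have h2 : (⌊(v c j + W) / (2 * W) * R⌋₊ : ℝ) = ⌊(v c' j + W) / (2 * W) * R⌋₊ := by
      have := congrFun heq j
      simp only [hf, Fin.mk.injEq] at this
      exact_mod_cast this
    have a1 := Nat.floor_le (a := (v c j + W) / (2 * W) * R) (by have := (hpos c j).1; positivity)
    have a2 := Nat.lt_floor_add_one ((v c j + W) / (2 * W) * R)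
    have b1 := Nat.floor_le (a := (v c' j + W) / (2 * W) * R) (by have := (hpos c' j).1; positivity)
    have b2 := Nat.lt_floor_add_one ((v c' j + W) / (2 * W) * R)
    have h3 : |(v c j + W) / (2 * W) * R - (v c' j + W) / (2 * W) * R| ≤ 1 := by
      rw [abs_le]
      constructor <;> linarith
    have h4 : (v c j + W) / (2 * W) * R - (v c' j + W) / (2 * W) * R =
        (v c j - v c' j) * (R / (2 * W)) := by
      field_simp
      ring
    rw [h4, abs_mul, abs_of_pos (by positivity : (0 : ℝ) < R / (2 * W))] at h3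
    rw [le_div_iff₀ hRr]
    rw [mul_div_assoc', div_le_iff₀ (by positivity)] at h3
    linarith

/-- Taylor approximation of `(1+u)^e` on `[0,1]` -/
theorem taylor_rpow (e : ℝ) (T : ℕ) (hT : 1 ≤ T) : ∃ (a : ℕ → ℝ) (C : ℝ), 0 ≤ C ∧
    (∀ m < T, |a m| ≤ C) ∧ ∀ u : ℝ, 0 ≤ u → u ≤ 1 →
      |(1 + u) ^ e - ∑ m ∈ range T, a m * u ^ m| ≤ C * u ^ T := by
  obtain ⟨n, rfl⟩ : ∃ n, T = n + 1 := ⟨T - 1, by omega⟩
  set f : ℝ → ℝ := fun u => (1 + u) ^ e with hf
  have hcd : ContDiffOn ℝ (n + 1 : ℕ) f (Set.Icc 0 1) := by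
    intro u hu
    have h1 : (1 + u : ℝ) ≠ 0 := by have := hu.1; positivity
    exact ((contDiffAt_const.add contDiffAt_id).rpow_const_of_ne h1).contDiffWithinAt
  obtain ⟨C, hC⟩ := exists_taylor_mean_remainder_bound (n := n) (zero_le_one' ℝ)
    (by exact_mod_cast hcd)
  set a : ℕ → ℝ := fun m => ((m.factorial : ℝ))⁻¹ * iteratedDerivWithin m f (Set.Icc 0 1) 0 with ha
  refine ⟨a, |C| + ∑ m ∈ range (n + 1), |a m|, by positivity, ?_, ?_⟩
  · intro m hm
    have h1 : |a m| ≤ ∑ m ∈ range (n + 1), |a m| :=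
      Finset.single_le_sum (f := fun m => |a m|) (fun i _ => abs_nonneg _) (Finset.mem_range.2 hm)
    have h2 := abs_nonneg C
    linarith
  · intro u hu0 hu1
    have h1 := hC u ⟨hu0, hu1⟩
    rw [taylor_within_apply] at h1
    have h2 : ∑ k ∈ range (n + 1), ((k.factorial : ℝ)⁻¹ * (u - 0) ^ k) •
        iteratedDerivWithin k f (Set.Icc 0 1) 0 = ∑ m ∈ range (n + 1), a m * u ^ m := by
      refine Finset.sum_congr rfl fun k _ => ?_
      rw [ha]
      simp only [sub_zero, smul_eq_mul]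
      ring
    rw [h2, Real.norm_eq_abs, sub_zero] at h1
    refine h1.trans ?_
    have h3 : 0 ≤ u ^ (n + 1) := by positivity
    have h4 : 0 ≤ ∑ m ∈ range (n + 1), |a m| := by positivity
    have h5 := le_abs_self C
    nlinarith

end Pool.Agent.X142.DM
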