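import Mathlib
import Pool.Agent.TH647.NR.Res

/-!
# Two integer polynomials small at the same real point
-/

set_option autoImplicit false

namespace Pool.Agent.X142.DM

open Polynomial Finset

lemma eval_map_ofReal (ξ : ℝ) (Q : ℤ[X]) :
    eval (ξ : ℂ) (Q.map (Int.castRingHom ℂ)) = ((aeval ξ Q : ℝ) : ℂ) := by
  have h := Polynomial.aeval_algebraMap_apply ℂ ξ Q
  rw [aeval_def] at h
  rw [eval_map]
  exact h

/-- an irreducible integer polynomial divides every integer polynomial which is very small at the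
same point -/
theorem dvd_of_small (Q R : ℤ[X]) (hQ : Irreducible Q) (hQ0 : 0 < Q.natDegree) {d D : ℕ}
    (hQd : Q.natDegree ≤ d) (hR : R.natDegree ≤ D) {HQ HR T η : ℝ} (hHQ : 1 ≤ HQ) (hHR : 1 ≤ HR)
    (hT : 1 ≤ T) (hη : 0 ≤ η) (hQH : ∀ i, |(Q.coeff i : ℝ)| ≤ HQ)
    (hRH : ∀ i, |(R.coeff i : ℝ)| ≤ HR) (ξ : ℝ) (hξ : |ξ| ≤ T) (hQξ : |aeval ξ Q| ≤ η)
    (hRξ : |aeval ξ R| ≤ η)
    (hsmall : HQ ^ D * HR ^ d * (((d + D : ℕ) : ℝ) * (T ^ (d + D) * η) * (d + D).factorial) < 1) :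
    Q ∣ R := by
  classical
  by_contra hnd
  set m := Q.natDegree with hm
  have hQp : Q.IsPrimitive := hQ.isPrimitive hQ0.ne'
  -- the resultant does not vanish
  have hres : resultant Q R m D ≠ 0 := by
    set ι := algebraMap ℤ ℚ with hι
    have hinj : Function.Injective ι := IsFractionRing.injective ℤ ℚ
    have hQ' : Irreducible (Q.map ι) :=
      (IsPrimitive.irreducible_iff_irreducible_map_fraction_map (K := ℚ) hQp).1 hQ
    have hcop : IsCoprime (Q.map ι) (R.map ι) := by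
      refine (hQ'.coprime_iff_not_dvd).2 fun hdvd => hnd ?_
      exact hQp.dvd_of_fraction_map_dvd_fraction_map (K := ℚ) hdvd
    have h2 := resultant_ne_zero _ _ hcop
    rw [natDegree_map_eq_of_injective hinj, natDegree_map_eq_of_injective hinj,
      resultant_map_map] at h2
    have h3 : resultant Q R ≠ 0 := fun h0 => h2 (by rw [h0, map_zero])
    obtain ⟨k, hk⟩ := Nat.exists_eq_add_of_le hR
    rw [hk, resultant_add_right_deg _ _ _ _ _ le_rfl]
    refine mul_ne_zero (pow_ne_zero _ ?_) h3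
    rw [hm, coeff_natDegree]
    exact leadingCoeff_ne_zero.2 hQ.ne_zero
  -- complex polynomials
  set φ := Int.castRingHom ℂ with hφ
  have hcast : ‖resultant (Q.map φ) (R.map φ) m D‖ = |((resultant Q R m D : ℤ) : ℝ)| := by
    rw [resultant_map_map, hφ, eq_intCast, Complex.norm_intCast]
  have h1 : (1 : ℝ) ≤ |((resultant Q R m D : ℤ) : ℝ)| := by
    have : (1 : ℤ) ≤ |resultant Q R m D| := Int.one_le_abs hres
    exact_mod_cast this
  set f : ℂ[X] := C ((HQ : ℂ)⁻¹) * Q.map φ with hf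
  set g : ℂ[X] := C ((HR : ℂ)⁻¹) * R.map φ with hg
  have hHQ0 : (HQ : ℂ) ≠ 0 := by
    have : HQ ≠ 0 := by linarith
    exact_mod_cast this
  have hHR0 : (HR : ℂ) ≠ 0 := by
    have : HR ≠ 0 := by linarith
    exact_mod_cast this
  have hfg : resultant f g m D = ((HQ : ℂ)⁻¹) ^ D * (((HR : ℂ)⁻¹) ^ m *
      resultant (Q.map φ) (R.map φ) m D) := by
    rw [hf, hg, resultant_C_mul_left, resultant_C_mul_right]
  have hnorm : ‖resultant f g m D‖ = (HQ⁻¹) ^ D * ((HR⁻¹) ^ m *
      |((resultant Q R m D : ℤ) : ℝ)|) := by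
    rw [hfg, norm_mul, norm_mul, norm_pow, norm_pow, norm_inv, norm_inv, Complex.norm_real,
      Complex.norm_real, hcast, Real.norm_of_nonneg (by linarith), Real.norm_of_nonneg (by linarith)]
  have hle := Pool.Agent.TH647.NR.norm_resultant_le f g m D
    ((natDegree_C_mul_le _ _).trans (natDegree_map_le.trans le_rfl))
    ((natDegree_C_mul_le _ _).trans (natDegree_map_le.trans hR)) (by omega) 1 T η le_rfl
    (by
      intro i
      rw [hf, coeff_C_mul, coeff_map, norm_mul, norm_inv, Complex.norm_real, hφ, eq_intCast,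
        Complex.norm_intCast, Real.norm_of_nonneg (by linarith : (0 : ℝ) ≤ HQ)]
      rw [inv_mul_le_iff₀ (by linarith), mul_one]
      exact hQH i)
    (by
      intro i
      rw [hg, coeff_C_mul, coeff_map, norm_mul, norm_inv, Complex.norm_real, hφ, eq_intCast,
        Complex.norm_intCast, Real.norm_of_nonneg (by linarith : (0 : ℝ) ≤ HR)]
      rw [inv_mul_le_iff₀ (by linarith), mul_one]
      exact hRH i)
    (ξ : ℂ) hT (by rw [Complex.norm_real]; exact hξ)
    (by
      have h2 : eval (ξ : ℂ) (Q.map φ) = ((aeval ξ Q : ℝ) : ℂ) := eval_map_ofReal ξ Q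
      rw [hf, eval_mul, eval_C, h2, norm_mul, norm_inv, Complex.norm_real, Complex.norm_real,
        Real.norm_of_nonneg (by linarith : (0 : ℝ) ≤ HQ), Real.norm_eq_abs]
      rw [inv_mul_le_iff₀ (by linarith)]
      nlinarith)
    (by
      have h2 : eval (ξ : ℂ) (R.map φ) = ((aeval ξ R : ℝ) : ℂ) := eval_map_ofReal ξ R
      rw [hg, eval_mul, eval_C, h2, norm_mul, norm_inv, Complex.norm_real, Complex.norm_real,
        Real.norm_of_nonneg (by linarith : (0 : ℝ) ≤ HR), Real.norm_eq_abs]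
      rw [inv_mul_le_iff₀ (by linarith)]
      nlinarith)
  rw [hnorm, one_pow, mul_one] at hle
  have hHQD : 0 < HQ ^ D := by positivity
  have hHRm : 0 < HR ^ m := by positivity
  have h4 : |((resultant Q R m D : ℤ) : ℝ)| ≤ HQ ^ D * HR ^ m *
      ((m + D) * (T ^ (m + D) * η) * (m + D).factorial) := by
    have h5 : |((resultant Q R m D : ℤ) : ℝ)| = HQ ^ D * HR ^ m *
        ((HQ⁻¹) ^ D * ((HR⁻¹) ^ m * |((resultant Q R m D : ℤ) : ℝ)|)) := by
      have b1 : HQ ^ D * (HQ⁻¹) ^ D = 1 := by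
        rw [← mul_pow, mul_inv_cancel₀ (by linarith), one_pow]
      have b2 : HR ^ m * (HR⁻¹) ^ m = 1 := by
        rw [← mul_pow, mul_inv_cancel₀ (by linarith), one_pow]
      calc |((resultant Q R m D : ℤ) : ℝ)| = (HQ ^ D * (HQ⁻¹) ^ D) * (HR ^ m * (HR⁻¹) ^ m) *
            |((resultant Q R m D : ℤ) : ℝ)| := by rw [b1, b2, one_mul, one_mul]
        _ = _ := by ring
    rw [h5]
    exact mul_le_mul_of_nonneg_left hle (by positivity)
  have h6 : HQ ^ D * HR ^ m * (((m : ℝ) + D) * (T ^ (m + D) * η) * (m + D).factorial) ≤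
      HQ ^ D * HR ^ d * (((d + D : ℕ) : ℝ) * (T ^ (d + D) * η) * (d + D).factorial) := by
    have a1 : HR ^ m ≤ HR ^ d := pow_le_pow_right₀ hHR hQd
    have a2 : T ^ (m + D) ≤ T ^ (d + D) := pow_le_pow_right₀ hT (by omega)
    have a3 : ((m : ℝ) + D) ≤ ((d + D : ℕ) : ℝ) := by push_cast; gcongr
    have a4 : ((m + D).factorial : ℝ) ≤ (d + D).factorial := by
      exact_mod_cast Nat.factorial_le (by omega)
    gcongr
  linarith

/-- values of a multiple of a polynomial small at `ξ` -/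
theorem small_of_dvd (Q R : ℤ[X]) (hQ0 : 0 < Q.natDegree) (hQR : Q ∣ R) {d D : ℕ}
    (hQd : Q.natDegree ≤ d) (hR : R.natDegree ≤ D) {HR T η : ℝ} (hHR : 1 ≤ HR)
    (hT : 1 ≤ T) (hη : 0 ≤ η) (hη1 : η ≤ 1) (hRH : ∀ i, |(R.coeff i : ℝ)| ≤ HR) (ξ : ℝ)
    (hξ : |ξ| ≤ T) (hQξ : |aeval ξ Q| ≤ η) :
    |aeval ξ R| ≤ η ^ ((d : ℝ)⁻¹) * ((D + 1) * (D * HR * (T + 1) ^ D)) := by
  classical
  set m := Q.natDegree with hm
  set φ := Int.castRingHom ℂ with hφ
  have hd0 : 0 < d := by omega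
  have hinj : Function.Injective φ := Int.cast_injective
  have hsp : (Q.map φ).Splits := IsAlgClosed.splits _
  have hQ1 : eval (ξ : ℂ) (Q.map φ) = ((aeval ξ Q : ℝ) : ℂ) := eval_map_ofReal ξ Q
  have hR1 : eval (ξ : ℂ) (R.map φ) = ((aeval ξ R : ℝ) : ℂ) := eval_map_ofReal ξ R
  have hcard : (Q.map φ).roots.card = m := by
    rw [← hsp.natDegree_eq_card_roots, natDegree_map_eq_of_injective hinj]
  -- a close root
  set t : ℝ := η ^ ((d : ℝ)⁻¹) with ht
  have ht0 : 0 ≤ t := Real.rpow_nonneg hη _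
  have ht1 : t ≤ 1 := Real.rpow_le_one hη hη1 (by positivity)
  have htd : t ^ d = η := by
    rw [ht, ← Real.rpow_natCast, ← Real.rpow_mul hη, inv_mul_cancel₀ (by positivity), Real.rpow_one]
  have hroot : ∃ α ∈ (Q.map φ).roots, ‖(ξ : ℂ) - α‖ ≤ t := by
    by_contra hcon
    push Not at hcon
    have hQne : Q ≠ 0 := by
      rintro rfl
      simp at hm
      omega
    have hprod := hsp.eval_eq_prod_roots (ξ : ℂ)
    have hlc : (1 : ℝ) ≤ ‖(Q.map φ).leadingCoeff‖ := by
      rw [leadingCoeff_map_of_injective hinj, hφ, eq_intCast, Complex.norm_intCast]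
      have : (1 : ℤ) ≤ |Q.leadingCoeff| := Int.one_le_abs (leadingCoeff_ne_zero.2 hQne)
      exact_mod_cast this
    have hgt : ∀ s : Multiset ℂ, (∀ α ∈ s, t < ‖(ξ : ℂ) - α‖) → s.card ≠ 0 →
        t ^ s.card < ‖(s.map fun α => (ξ : ℂ) - α).prod‖ := by
      intro s
      induction s using Multiset.induction_on with
      | empty => intro _ h; simp at h
      | cons a s ih =>
        intro h _
        rw [Multiset.map_cons, Multiset.prod_cons, norm_mul, Multiset.card_cons, pow_succ']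
        have h1 := h a (Multiset.mem_cons_self a s)
        by_cases hs : s.card = 0
        · rw [Multiset.card_eq_zero.1 hs]
          simpa using h1
        · have h2 := ih (fun α hα => h α (Multiset.mem_cons_of_mem hα)) hs
          have h3 : 0 ≤ t ^ s.card := by positivity
          nlinarith [norm_nonneg ((ξ : ℂ) - a)]
    have h2 := hgt _ hcon (by rw [hcard]; omega)
    rw [hcard] at h2
    have h3 : ‖((aeval ξ Q : ℝ) : ℂ)‖ = ‖(Q.map φ).leadingCoeff‖ *
        ‖((Q.map φ).roots.map fun α => (ξ : ℂ) - α).prod‖ := by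
      rw [← hQ1, hprod, norm_mul]
    rw [Complex.norm_real, Real.norm_eq_abs] at h3
    have h4 : η ≤ t ^ m := by
      rw [← htd]
      exact pow_le_pow_of_le_one ht0 ht1 hQd
    have h5 : 0 ≤ ‖((Q.map φ).roots.map fun α => (ξ : ℂ) - α).prod‖ := norm_nonneg _
    nlinarith
  obtain ⟨α, hα, hαt⟩ := hroot
  have hRα : eval α (R.map φ) = 0 := by
    obtain ⟨S, rfl⟩ := hQR
    rw [Polynomial.map_mul, eval_mul, (mem_roots'.1 hα).2, zero_mul]
  have hαT : ‖α‖ ≤ T + 1 := by
    have h1 : ‖α‖ ≤ ‖(ξ : ℂ)‖ + ‖(ξ : ℂ) - α‖ := by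
      have := norm_sub_le (ξ : ℂ) ((ξ : ℂ) - α)
      simpa using this
    rw [Complex.norm_real, Real.norm_eq_abs] at h1
    linarith
  have hpow : ∀ j ≤ D, ‖(ξ : ℂ) ^ j - α ^ j‖ ≤ t * (D * (T + 1) ^ D) := by
    intro j hj
    rw [← Commute.mul_geom_sum₂ (Commute.all (ξ : ℂ) α) j, norm_mul]
    refine mul_le_mul hαt ?_ (norm_nonneg _) ht0
    refine (norm_sum_le _ _).trans ?_
    have h1 : ∀ i ∈ Finset.range j, ‖(ξ : ℂ) ^ i * α ^ (j - 1 - i)‖ ≤ (T + 1) ^ D := by
      intro i hi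
      have hi' := Finset.mem_range.1 hi
      rw [norm_mul, norm_pow, norm_pow, Complex.norm_real, Real.norm_eq_abs]
      calc |ξ| ^ i * ‖α‖ ^ (j - 1 - i) ≤ (T + 1) ^ i * (T + 1) ^ (j - 1 - i) := by
            gcongr
            linarith
        _ = (T + 1) ^ (i + (j - 1 - i)) := (pow_add _ _ _).symm
        _ ≤ (T + 1) ^ D := pow_le_pow_right₀ (by linarith) (by omega)
    refine (Finset.sum_le_card_nsmul _ _ _ h1).trans ?_
    rw [Finset.card_range, nsmul_eq_mul]
    have : (j : ℝ) ≤ D := by exact_mod_cast hj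
    gcongr
  have hdiff : ((aeval ξ R : ℝ) : ℂ) = ∑ j ∈ Finset.range (D + 1),
      ((R.coeff j : ℤ) : ℂ) * ((ξ : ℂ) ^ j - α ^ j) := by
    have hd : (R.map φ).natDegree < D + 1 := by
      have := natDegree_map_le (f := φ) (p := R)
      omega
    have e1 := eval_eq_sum_range' hd (ξ : ℂ)
    have e2 := eval_eq_sum_range' hd α
    rw [← hR1, ← sub_zero (eval (ξ : ℂ) (R.map φ)), ← hRα, e1, e2, ← Finset.sum_sub_distrib]
    refine Finset.sum_congr rfl fun j _ => ?_
    rw [coeff_map, hφ, eq_intCast]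
    ring
  have hfin : |aeval ξ R| = ‖((aeval ξ R : ℝ) : ℂ)‖ := by
    rw [Complex.norm_real, Real.norm_eq_abs]
  rw [hfin, hdiff]
  refine (norm_sum_le _ _).trans ?_
  have h1 : ∀ j ∈ Finset.range (D + 1), ‖((R.coeff j : ℤ) : ℂ) * ((ξ : ℂ) ^ j - α ^ j)‖ ≤
      HR * (t * (D * (T + 1) ^ D)) := by
    intro j hj
    rw [norm_mul, Complex.norm_intCast]
    exact mul_le_mul (hRH j) (hpow j (by have := Finset.mem_range.1 hj; omega)) (norm_nonneg _)
      (by linarith)
  refine (Finset.sum_le_card_nsmul _ _ _ h1).trans (le_of_eq ?_)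
  rw [Finset.card_range, nsmul_eq_mul]
  push_cast
  ring

end Pool.Agent.X142.DM
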